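import Pool.Agent.K1H42.FS.Main
import Pool.Agent.K1H42.FS.Lag
import Pool.Agent.K1H42.FS.Tri

/-!
# MP_993212_an: matrices of any rank which are strong shift equivalent to a full shift

`A` is a `k × k` matrix over `ℕ` with constant row sums `n`, and the differences of its rows are
`A_p - A_i = x_i W_{c(i)}` with `x_i ∈ ℕ` and integer vectors `W_1, …, W_s` with entry sum zero.
If `∑_{c(j) = b} (W_a)_j x_j = 0` for all `a ≤ b`, or if `W_1, …, W_s` are linearly independent and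
all rows of `A ^ 2` are equal, then `A` and its transpose are strong shift equivalent to `[n]`.
-/

set_option autoImplicit false

namespace Pool.Agent.Results.MP_993212_an.FullShiftAnyRank

open Matrix

/-- Elementary equivalence of square matrices over `ℕ`: `A = R S`, `B = S R` for rectangular
matrices `R`, `S` over `ℕ`. -/
def Elem (X Y : Σ n : ℕ, Matrix (Fin n) (Fin n) ℕ) : Prop :=
  ∃ (R : Matrix (Fin X.1) (Fin Y.1) ℕ) (S : Matrix (Fin Y.1) (Fin X.1) ℕ),
    X.2 = R * S ∧ Y.2 = S * R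

/-- Strong shift equivalence over `ℕ` (a finite chain of elementary equivalences). -/
def SSE {n m : ℕ} (A : Matrix (Fin n) (Fin n) ℕ) (B : Matrix (Fin m) (Fin m) ℕ) : Prop :=
  Relation.TransGen Elem ⟨n, A⟩ ⟨m, B⟩

/-- The `1 × 1` matrix `[n]` (the full `n`-shift). -/
def full (n : ℕ) : Matrix (Fin 1) (Fin 1) ℕ := fun _ _ => n

/-- All row sums of `A` are `n`, the integer vectors `W_1, …, W_s` have entry sum zero, and the
differences of rows are `A_p - A_i = x_i W_{c(i)}` for all `i`, with `x_i ∈ ℕ`. -/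
def Pencil {k s : ℕ} (n : ℕ) (A : Matrix (Fin k) (Fin k) ℕ) (p : Fin k) (c : Fin k → Fin s)
    (x : Fin k → ℕ) (W : Fin s → Fin k → ℤ) : Prop :=
  (∀ i, ∑ j, A i j = n) ∧ (∀ a, ∑ j, W a j = 0) ∧
    ∀ i j, (A p j : ℤ) - A i j = x i * W (c i) j

theorem result (k s n : ℕ) (A : Matrix (Fin k) (Fin k) ℕ) (p : Fin k) (c : Fin k → Fin s)
    (x : Fin k → ℕ) (W : Fin s → Fin k → ℤ) (h : Pencil n A p c x W)
    (h' : (∀ a b, a ≤ b → ∑ j, (if c j = b then W a j * (x j : ℤ) else 0) = 0) ∨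
      (LinearIndependent ℤ W ∧ ∀ i j, (A ^ 2) i j = (A ^ 2) p j)) :
    SSE A (full n) ∧ SSE Aᵀ (full n) := by
  obtain ⟨h1, h2, h3⟩ := h
  have key : Pool.Agent.K1H42.FS.SSE A (Pool.Agent.K1H42.FS.full n) := by
    rcases h' with h4 | ⟨h4, h5⟩
    · exact Pool.Agent.K1H42.FS.sse_tri (h1 p) h2 h3 h4
    · refine Pool.Agent.K1H42.FS.sse_lag h1 (fun i j => ?_) h4 h3
      have h6 := h5 i j
      rwa [pow_two] at h6
  exact ⟨key, Pool.Agent.K1H42.FS.sse_transpose key⟩

end Pool.Agent.Results.MP_993212_an.FullShiftAnyRank
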