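import Pool.Agent.K1H42.FS.Gen

/-!
# MP_993212_an: strong shift equivalence to a full shift for matrices of rank at most two

For a nonnegative integer matrix of rank at most two with constant row sums `n` (or constant column
sums `n`), strong shift equivalence to `[n]`, shift equivalence to `[n]` over `ℕ`, shift equivalence
to `[n]` over `ℤ` and trace `= n` are equivalent. For `3 × 3` matrices with constant row sums no
hypothesis on the rank is needed. The key move replaces `C + x bᵀ` by `C + x aᵀ` when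
`aᵀ C = bᵀ C` and `a · x = b · x`.
-/

set_option autoImplicit false

namespace Pool.Agent.Results.MP_993212_an.FullShiftRankTwo

open Matrix

/-- Elementary equivalence of square matrices over `ℕ`: `A = R S`, `B = S R` for rectangular
matrices `R`, `S` over `ℕ`. -/
def Elem (X Y : Σ n : ℕ, Matrix (Fin n) (Fin n) ℕ) : Prop :=
  ∃ (R : Matrix (Fin X.1) (Fin Y.1) ℕ) (S : Matrix (Fin Y.1) (Fin X.1) ℕ),
    X.2 = R * S ∧ Y.2 = S * R

/-- Strong shift equivalence over `ℕ` (a finite chain of elementary equivalences). -/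
def SSE {n m : ℕ} (A : Matrix (Fin n) (Fin n) ℕ) (B : Matrix (Fin m) (Fin m) ℕ) : Prop :=
  Relation.TransGen Elem ⟨n, A⟩ ⟨m, B⟩

/-- Shift equivalence of square matrices over a semiring `k` (used for `k = ℕ` and `k = ℤ`). -/
def SE (k : Type) [Semiring k] {n m : ℕ} (A : Matrix (Fin n) (Fin n) k)
    (B : Matrix (Fin m) (Fin m) k) : Prop :=
  ∃ l, 1 ≤ l ∧ ∃ (R : Matrix (Fin n) (Fin m) k) (S : Matrix (Fin m) (Fin n) k),
    A ^ l = R * S ∧ B ^ l = S * R ∧ A * R = R * B ∧ S * A = B * S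

/-- The matrix `A` viewed over `ℤ`. -/
def toZ {n : ℕ} (A : Matrix (Fin n) (Fin n) ℕ) : Matrix (Fin n) (Fin n) ℤ :=
  A.map (Nat.cast : ℕ → ℤ)

/-- The `1 × 1` matrix `[n]` (the full `n`-shift). -/
def full (n : ℕ) : Matrix (Fin 1) (Fin 1) ℕ := fun _ _ => n

/-- All row sums of `A` are `n`, or all column sums of `A` are `n`. -/
def ConstSum {k : ℕ} (n : ℕ) (A : Matrix (Fin k) (Fin k) ℕ) : Prop :=
  (∀ i, ∑ j, A i j = n) ∨ (∀ j, ∑ i, A i j = n)

theorem result :
    -- rank at most two, constant row sums or constant column sums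
    (∀ (k n : ℕ) (A : Matrix (Fin k) (Fin k) ℕ), 1 ≤ k → ConstSum n A →
      (A.map (Nat.cast : ℕ → ℚ)).rank ≤ 2 →
      (SSE A (full n) ↔ SE ℕ A (full n)) ∧
      (SE ℕ A (full n) ↔ SE ℤ (toZ A) (toZ (full n))) ∧
      (SSE A (full n) ↔ A.trace = n)) ∧
    -- size three, constant row sums or constant column sums, any rank
    (∀ (n : ℕ) (A : Matrix (Fin 3) (Fin 3) ℕ), ConstSum n A →
      (SSE A (full n) ↔ SE ℕ A (full n)) ∧
      (SE ℕ A (full n) ↔ SE ℤ (toZ A) (toZ (full n))) ∧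
      (SSE A (full n) ↔ A.trace = n ∧ (toZ A).det = 0)) ∧
    -- `A = u rᵀ - x wᵀ` (or its transpose) with `u`, `r`, `x` nonnegative and `w · u = 0`
    (∀ (k : ℕ) (A : Matrix (Fin k) (Fin k) ℕ) (u r x : Fin k → ℕ) (w : Fin k → ℤ),
      0 < r ⬝ᵥ u → ∑ j, w j * u j = 0 →
      ((∀ i j, (A i j : ℤ) = u i * r j - x i * w j) ∨
        (∀ i j, (A j i : ℤ) = u i * r j - x i * w j)) →
      (SSE A (full (r ⬝ᵥ u)) ↔ SE ℕ A (full (r ⬝ᵥ u))) ∧
      (SE ℕ A (full (r ⬝ᵥ u)) ↔ SE ℤ (toZ A) (toZ (full (r ⬝ᵥ u)))) ∧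
      (SSE A (full (r ⬝ᵥ u)) ↔ A.trace = r ⬝ᵥ u)) := by
  have main : ∀ (k n : ℕ) (A : Matrix (Fin k) (Fin k) ℕ), 1 ≤ k → ConstSum n A →
      (A.map (Nat.cast : ℕ → ℚ)).rank ≤ 2 → Pool.Agent.K1H42.FS.Good n A := by
    intro k n A hk hA hr
    rcases hA with hA | hA
    · exact Pool.Agent.K1H42.FS.good_row hk hA hr
    · refine Pool.Agent.K1H42.FS.good_transpose
        (Pool.Agent.K1H42.FS.good_row hk (fun i => hA i) ?_)
      have h1 : Aᵀ.map (Nat.cast : ℕ → ℚ) = (A.map (Nat.cast : ℕ → ℚ))ᵀ := rfl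
      rw [h1, Matrix.rank_transpose]
      exact hr
  refine ⟨main, ?_, ?_⟩
  · intro n A hA
    by_cases hd : (toZ A).det = 0
    · obtain ⟨g1, g2, g3⟩ := main 3 n A (by norm_num) hA (Pool.Agent.K1H42.FS.rank_of_det hd)
      exact ⟨g1, g2, fun h => ⟨g3.mp h, hd⟩, fun h => g3.mpr h.1⟩
    · have hno : ¬ SE ℤ (toZ A) (toZ (full n)) := fun h =>
        hd (Pool.Agent.K1H42.FS.det_of_se h)
      have s1 : SSE A (full n) → SE ℕ A (full n) := Pool.Agent.K1H42.FS.se_of_sse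
      have s2 : SE ℕ A (full n) → SE ℤ (toZ A) (toZ (full n)) := Pool.Agent.K1H42.FS.seZ_of_se
      exact ⟨⟨s1, fun h => absurd (s2 h) hno⟩, ⟨s2, fun h => absurd h hno⟩,
        fun h => absurd (s2 (s1 h)) hno, fun h => absurd h.2 hd⟩
  · intro k A u r x w hn hw hx
    rcases hx with hx | hx
    · exact Pool.Agent.K1H42.FS.good_gen hn hw hx
    · exact Pool.Agent.K1H42.FS.good_transpose (Pool.Agent.K1H42.FS.good_gen hn hw hx)

end Pool.Agent.Results.MP_993212_an.FullShiftRankTwo
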