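import Pool.Agent.K1H42.FS.Gen
import Pool.Agent.Results.MP_993212_an.FullShiftComponentsSSE

/-!
# MP_993212_an: SE = SSE over `ℕ` for matrices with components of rank at most two

Let every irreducible component of `A` and of `B` either have rank at most two, constant row sums
or constant column sums `m` and trace `m`, or be strong shift equivalent to a cyclic permutation
matrix. Then `A` and `B` are strong shift equivalent over `ℕ` if and only if they are shift
equivalent over `ℕ`.
-/

set_option autoImplicit false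

namespace Pool.Agent.Results.MP_993212_an.RankTwoComponents

open Matrix

/-- Elementary equivalence of square matrices over `ℕ`: `A = R S`, `B = S R` for rectangular
matrices `R`, `S` over `ℕ`. -/
def Elem (X Y : Σ n : ℕ, Matrix (Fin n) (Fin n) ℕ) : Prop :=
  ∃ (R : Matrix (Fin X.1) (Fin Y.1) ℕ) (S : Matrix (Fin Y.1) (Fin X.1) ℕ),
    X.2 = R * S ∧ Y.2 = S * R

/-- Strong shift equivalence over `ℕ` (a finite chain of elementary equivalences). -/
def SSE {n m : ℕ} (A : Matrix (Fin n) (Fin n) ℕ) (B : Matrix (Fin m) (Fin m) ℕ) : Prop :=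
  Relation.TransGen Elem ⟨n, A⟩ ⟨m, B⟩

/-- Shift equivalence over `ℕ` (with some lag `l ≥ 1`). -/
def SE {n m : ℕ} (A : Matrix (Fin n) (Fin n) ℕ) (B : Matrix (Fin m) (Fin m) ℕ) : Prop :=
  ∃ l, 1 ≤ l ∧ ∃ (R : Matrix (Fin n) (Fin m) ℕ) (S : Matrix (Fin m) (Fin n) ℕ),
    A ^ l = R * S ∧ B ^ l = S * R ∧ A * R = R * B ∧ S * A = B * S

/-- The cyclic `m × m` permutation matrix (one periodic orbit). -/
def cyc (m : ℕ) : Matrix (Fin m) (Fin m) ℕ := fun i j => if j = finRotate m i then 1 else 0

/-- `C` has rank at most two, trace `m`, and all its row sums are `m` or all its column sums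
are `m`. -/
def RankTwo {k : ℕ} (m : ℕ) (C : Matrix (Fin k) (Fin k) ℕ) : Prop :=
  (C.map (Nat.cast : ℕ → ℚ)).rank ≤ 2 ∧ C.trace = m ∧
    ((∀ i, ∑ j, C i j = m) ∨ (∀ j, ∑ i, C i j = m))

/-- Every irreducible component `C` of `A` (the submatrix on the set of all states `j` which can be
reached from `i` and from which `i` can be reached, for any state `i`) satisfies `RankTwo m C` for
some `m`, or is strong shift equivalent to some cyclic permutation matrix. -/
def Comps {n : ℕ} (A : Matrix (Fin n) (Fin n) ℕ) : Prop :=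
  ∀ i : Fin n, ∃ (k : ℕ) (f : Fin k → Fin n), Function.Injective f ∧
    (∀ j, j ∈ Set.range f ↔ (∃ p, (A ^ p) i j ≠ 0) ∧ ∃ p, (A ^ p) j i ≠ 0) ∧
    ((∃ m, RankTwo m (A.submatrix f f)) ∨ ∃ m, SSE (A.submatrix f f) (cyc m))

theorem result : ∀ {n m : ℕ} (A : Matrix (Fin n) (Fin n) ℕ) (B : Matrix (Fin m) (Fin m) ℕ),
    Comps A → Comps B → (SSE A B ↔ SE A B) := by
  have key : ∀ {n : ℕ} (A : Matrix (Fin n) (Fin n) ℕ), Comps A →
      Pool.Agent.Results.MP_993212_an.FullShiftComponentsSSE.FullOrCycleComponents A := by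
    intro n A hA i
    obtain ⟨k, f, hf, hr, hs⟩ := hA i
    refine ⟨k, f, hf, hr, ?_⟩
    rcases hs with ⟨m, h1, h2, h3⟩ | h
    · left
      have hk : 0 < k := by
        obtain ⟨a, -⟩ := (hr i).mpr ⟨⟨0, by simp⟩, ⟨0, by simp⟩⟩
        exact Nat.lt_of_le_of_lt (Nat.zero_le _) a.2
      refine ⟨m, ?_⟩
      have g : Pool.Agent.K1H42.FS.Good m (A.submatrix f f) := by
        rcases h3 with h3 | h3
        · exact Pool.Agent.K1H42.FS.good_row hk h3 h1
        · refine Pool.Agent.K1H42.FS.good_transpose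
            (Pool.Agent.K1H42.FS.good_row hk (fun i => h3 i) ?_)
          have e : (A.submatrix f f)ᵀ.map (Nat.cast : ℕ → ℚ) =
              ((A.submatrix f f).map (Nat.cast : ℕ → ℚ))ᵀ := rfl
          rw [e, Matrix.rank_transpose]
          exact h1
      exact g.2.2.mpr h2
    · right
      exact h
  intro n m A B hA hB
  have h := Pool.Agent.Results.MP_993212_an.FullShiftComponentsSSE.result.1 A B
    (key A hA) (key B hB)
  constructor
  · intro hs
    obtain ⟨l, R, S, h0, h1, h2, h3, h4⟩ := h.mp hs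
    exact ⟨l, h0, R, S, h1.symm, h2.symm, h3, h4⟩
  · rintro ⟨l, h0, R, S, h1, h2, h3, h4⟩
    exact h.mpr ⟨l, R, S, h0, h1.symm, h2.symm, h3, h4⟩

end Pool.Agent.Results.MP_993212_an.RankTwoComponents
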