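import Pool.Agent.K1H62.SR.Zero
import Pool.Agent.Results.MP_993212_an.FullShiftComponentsSSE

/-!
# MP_993212_an: all `2 × 2` matrices over `ℕ` with `500 |det| ≤ tr²`, rational eigenvalues included

Strong shift equivalence over `ℕ` and shift equivalence over `ℕ` coincide for all pairs of `2 × 2`
matrices over `ℕ`, as soon as one of them satisfies `500 |det| ≤ tr²`; for irreducible matrices they
also coincide with shift equivalence over `ℤ`.  For irreducible matrices with integer eigenvalues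
`lam > |mu|`, in triangular form `[[mu, b], [0, lam]]` over `ℤ`, the classification is explicit:
`b` modulo `lam - mu`, up to multiplication by divisors of powers of `lam` and of `mu`.

The case of irrational eigenvalues is the starting file `ShiftEqSmallDet`; the case of two triangular
matrices is in the starting file `FullShiftComponentsSSE`.  New here: irreducible matrices with
rational eigenvalues.  Used from the starting library: the calculus of presentations and the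
similarity theorems of `TH441.SSE2` and `Y321`.
-/

set_option autoImplicit false

namespace Pool.Agent.Results.MP_993212_an.TwoByTwoSmallDet

open Matrix

/-- Elementary equivalence of square matrices over `ℕ`: `A = R S`, `B = S R` for rectangular
matrices `R`, `S` over `ℕ`. -/
def Elem (X Y : Σ n : ℕ, Matrix (Fin n) (Fin n) ℕ) : Prop :=
  ∃ (R : Matrix (Fin X.1) (Fin Y.1) ℕ) (S : Matrix (Fin Y.1) (Fin X.1) ℕ),
    X.2 = R * S ∧ Y.2 = S * R

/-- Strong shift equivalence over `ℕ` (a finite chain of elementary equivalences). -/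
def SSE {n m : ℕ} (A : Matrix (Fin n) (Fin n) ℕ) (B : Matrix (Fin m) (Fin m) ℕ) : Prop :=
  Relation.TransGen Elem ⟨n, A⟩ ⟨m, B⟩

/-- Shift equivalence of square matrices over a semiring `k` (used for `k = ℕ` and `k = ℤ`). -/
def SE (k : Type) [Semiring k] {n m : ℕ} (A : Matrix (Fin n) (Fin n) k)
    (B : Matrix (Fin m) (Fin m) k) : Prop :=
  ∃ l, 1 ≤ l ∧ ∃ (R : Matrix (Fin n) (Fin m) k) (S : Matrix (Fin m) (Fin n) k),
    A ^ l = R * S ∧ B ^ l = S * R ∧ A * R = R * B ∧ S * A = B * S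

/-- The matrix `A` viewed over `ℤ`. -/
def toZ (A : Matrix (Fin 2) (Fin 2) ℕ) : Matrix (Fin 2) (Fin 2) ℤ :=
  A.map (Nat.cast : ℕ → ℤ)

/-- `A` is irreducible (a `2 × 2` matrix is irreducible if and only if both entries outside the
diagonal are positive). -/
def Irr (A : Matrix (Fin 2) (Fin 2) ℕ) : Prop := 0 < A 0 1 ∧ 0 < A 1 0

/-- Similarity over `ℤ`. -/
def SimZ (A B : Matrix (Fin 2) (Fin 2) ℤ) : Prop :=
  ∃ U : Matrix (Fin 2) (Fin 2) ℤ, IsUnit U.det ∧ U * A = B * U

lemma se_of_sse {A B : Matrix (Fin 2) (Fin 2) ℕ} (h : SSE A B) : SE ℕ A B :=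
  Pool.Agent.Y321.SE2.se_of_transGen (fun _ _ hXY => hXY) h

lemma seZ_of_seN {A B : Matrix (Fin 2) (Fin 2) ℕ} (h : SE ℕ A B) : SE ℤ (toZ A) (toZ B) :=
  Pool.Agent.Y321.SE2.seZ_of_seN h

lemma sse_of_Q {A B : Matrix (Fin 2) (Fin 2) ℕ}
    (h : Pool.Agent.TH441.SSE2.Q (toZ A) (toZ B)) : SSE A B :=
  Pool.Agent.Y321.SE2.transGen_of_Q (fun _ _ R S => ⟨R, S, rfl, rfl⟩) A B h

lemma nn (A : Matrix (Fin 2) (Fin 2) ℕ) : Pool.Agent.TH441.SSE2.NN (toZ A) :=
  fun i j => by simp [toZ]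

/-- Irreducible matrices (or determinant zero): shift equivalence over `ℤ` suffices. -/
theorem sse_of_seZ (A B : Matrix (Fin 2) (Fin 2) ℕ)
    (hq : 500 * |(toZ A).det| ≤ (toZ A).trace ^ 2)
    (h0 : (toZ A).det = 0 ∨ (Irr A ∧ Irr B)) (h : SE ℤ (toZ A) (toZ B)) : SSE A B := by
  apply sse_of_Q
  by_cases hD : (toZ A).det = 0
  · obtain ⟨l, hl, R, S, e1, e2, e3, e4⟩ := h
    exact Pool.Agent.K1H62.SR.Q_zero (nn A) (nn B) hD l hl e1 e2
  · obtain ⟨⟨a1, a2⟩, b1, b2⟩ := h0.resolve_left hD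
    by_cases hs : IsSquare ((toZ A).trace ^ 2 - 4 * (toZ A).det)
    · obtain ⟨l, hl, R, S, e1, e2, e3, e4⟩ := h
      refine Pool.Agent.K1H62.SR.Q_rat (nn A) (nn B) ?_ ?_ ?_ ?_ hD hq hs l e3 e4 e1 <;>
        · simp only [toZ, Matrix.map_apply]; exact_mod_cast (by assumption)
    · exact Pool.Agent.Y321.SE2.Q_of_seZ_all A B hq hs h

/-- Two triangular matrices. -/
theorem tri_tri (A B : Matrix (Fin 2) (Fin 2) ℕ) (hA : A 1 0 = 0) (hB : B 1 0 = 0)
    (h : SE ℕ A B) : SSE A B := by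
  have g : ∀ M : Matrix (Fin 2) (Fin 2) ℕ, M 1 0 = 0 → ∀ i j, M i j ≠ 0 → i ≤ j := by
    intro M hM i j hij
    fin_cases i <;> fin_cases j <;> first | decide | exact absurd hM hij
  obtain ⟨r1, -, -, -, r5⟩ := FullShiftComponentsSSE.result
  obtain ⟨l, hl, R, S, e1, e2, e3, e4⟩ := h
  exact (r1 A B (r5 A (g A hA)) (r5 B (g B hB))).2 ⟨l, R, S, hl, e1.symm, e2.symm, e3, e4⟩

/-- Exchange of the two states. -/
lemma swap (A : Matrix (Fin 2) (Fin 2) ℕ) : SSE A !![A 1 1, A 1 0; A 0 1, A 0 0] := by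
  refine Relation.TransGen.single ⟨A * !![0, 1; 1, 0], !![0, 1; 1, 0], ?_, ?_⟩
  · ext i j; fin_cases i <;> fin_cases j <;> simp [Matrix.mul_apply, Fin.sum_univ_two]
  · ext i j; fin_cases i <;> fin_cases j <;> simp [Matrix.mul_apply, Fin.sum_univ_two]

lemma sse_symm {A B : Matrix (Fin 2) (Fin 2) ℕ} (h : SSE A B) : SSE B A := by
  have key : ∀ {X Y : Σ n : ℕ, Matrix (Fin n) (Fin n) ℕ}, Relation.TransGen Elem X Y →
      Relation.TransGen Elem Y X := by
    intro X Y h
    have hs : ∀ {X Y}, Elem X Y → Elem Y X := fun ⟨R, S, h1, h2⟩ => ⟨S, R, h2, h1⟩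
    induction h with
    | single h => exact Relation.TransGen.single (hs h)
    | tail _ h2 ih => exact Relation.TransGen.head (hs h2) ih
  exact key h

lemma upper (A : Matrix (Fin 2) (Fin 2) ℕ) (h : A 0 1 = 0 ∨ A 1 0 = 0) :
    ∃ A' : Matrix (Fin 2) (Fin 2) ℕ, A' 1 0 = 0 ∧ SSE A A' := by
  rcases h with h | h
  · exact ⟨_, by simpa using h, swap A⟩
  · exact ⟨A, h, Relation.TransGen.single ⟨A, 1, by simp, by simp⟩⟩

lemma se_symm {A B : Matrix (Fin 2) (Fin 2) ℕ} (h : SE ℕ A B) : SE ℕ B A := by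
  obtain ⟨l, hl, R, S, e1, e2, e3, e4⟩ := h
  exact ⟨l, hl, S, R, e2, e1, e4.symm, e3.symm⟩

/-- **Theorem.** -/
theorem result :
    -- (1) all `2 × 2` matrices over `ℕ`: shift equivalence implies strong shift equivalence
    (∀ A B : Matrix (Fin 2) (Fin 2) ℕ, 500 * |(toZ A).det| ≤ (toZ A).trace ^ 2 →
      (SSE A B ↔ SE ℕ A B)) ∧
    -- (2) irreducible matrices: shift equivalence over `ℤ` suffices
    (∀ A B : Matrix (Fin 2) (Fin 2) ℕ, 500 * |(toZ A).det| ≤ (toZ A).trace ^ 2 →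
      Irr A → Irr B → (SSE A B ↔ SE ℤ (toZ A) (toZ B))) ∧
    -- (3) explicit classification of the irreducible matrices with eigenvalues `lam > |mu| > 0`
    (∀ (A B : Matrix (Fin 2) (Fin 2) ℕ) (lam mu b b' : ℤ), mu ≠ 0 → |mu| ≤ lam →
      500 * |lam * mu| ≤ (lam + mu) ^ 2 → Irr A → Irr B →
      SimZ (toZ A) !![mu, b; 0, lam] → SimZ (toZ B) !![mu, b'; 0, lam] →
      (SSE A B ↔ ∃ (l : ℕ) (r r' : ℤ), r ∣ lam ^ l ∧ r' ∣ mu ^ l ∧
        (lam - mu) ∣ r * b - r' * b')) ∧
    -- (4) every irreducible matrix with rational eigenvalues has such a triangular form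
    (∀ A : Matrix (Fin 2) (Fin 2) ℕ, Irr A → IsSquare ((toZ A).trace ^ 2 - 4 * (toZ A).det) →
      ∃ lam mu b : ℤ, |mu| ≤ lam ∧ lam + mu = (toZ A).trace ∧ lam * mu = (toZ A).det ∧
        SimZ (toZ A) !![mu, b; 0, lam]) := by
  have h2 : ∀ A B : Matrix (Fin 2) (Fin 2) ℕ, 500 * |(toZ A).det| ≤ (toZ A).trace ^ 2 →
      Irr A → Irr B → (SSE A B ↔ SE ℤ (toZ A) (toZ B)) := fun A B hq hA hB =>
    ⟨fun h => seZ_of_seN (se_of_sse h), fun h => sse_of_seZ A B hq (Or.inr ⟨hA, hB⟩) h⟩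
  refine ⟨?_, h2, ?_, ?_⟩
  · intro A B hq
    refine ⟨se_of_sse, fun h => ?_⟩
    by_cases hD : (toZ A).det = 0
    · exact sse_of_seZ A B hq (Or.inl hD) (seZ_of_seN h)
    have hT : ∀ M : Matrix (Fin 2) (Fin 2) ℕ, (toZ M).trace = ((M 0 0 + M 1 1 : ℕ) : ℤ) := by
      intro M; rw [Matrix.trace_fin_two]; simp [toZ]
    by_cases hA : Irr A
    · by_cases hB : Irr B
      · exact (h2 A B hq hA hB).2 (seZ_of_seN h)
      · exfalso
        obtain ⟨l, hl, R, S, e1, e2, e3, e4⟩ := h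
        refine Pool.Agent.K1H62.SR.irr_tri hA.1 hA.2 ?_ hD ?_ l e3 e1 e2
        · by_contra hneg
          have h5 : A 0 0 + A 1 1 = 0 := by omega
          rw [hT, h5] at hq
          have := abs_pos.mpr hD
          simp at hq
          omega
        · unfold Irr at hB; omega
    · by_cases hB : Irr B
      · exfalso
        obtain ⟨l, hl, R, S, e1, e2, e3, e4⟩ := seZ_of_seN h
        obtain ⟨i1, i2⟩ := Pool.Agent.K1H62.SR.same_inv hD l e3 e1
        obtain ⟨l', hl', R', S', f1, f2, f3, f4⟩ := se_symm h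
        refine Pool.Agent.K1H62.SR.irr_tri hB.1 hB.2 ?_ (by rw [← toZ, i1]; exact hD) ?_ l' f3 f1 f2
        · by_contra hneg
          have h5 : B 0 0 + B 1 1 = 0 := by omega
          rw [← i2, hT, h5] at hq
          have := abs_pos.mpr hD
          simp at hq
          omega
        · unfold Irr at hA; omega
      · obtain ⟨A', a1, a2⟩ := upper A (by unfold Irr at hA; omega)
        obtain ⟨B', b1, b2⟩ := upper B (by unfold Irr at hB; omega)
        have h5 : SE ℕ A' B' := Pool.Agent.Y321.SE2.se_trans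
          (Pool.Agent.Y321.SE2.se_trans (se_of_sse (sse_symm a2)) h) (se_of_sse b2)
        exact (a2.trans (tri_tri A' B' a1 b1 h5)).trans (sse_symm b2)
  · intro A B lam mu b b' hmu hlt hq hA hB s1 s2
    have e : ∀ c : ℤ, (!![mu, c; 0, lam] : Matrix (Fin 2) (Fin 2) ℤ) =
        Pool.Agent.K1H62.SR.Pm (-mu) lam c := by
      intro c; rw [Pool.Agent.K1H62.SR.Pm, neg_neg]
    rw [e] at s1 s2
    have hN : -mu + lam ≠ 0 := by
      intro h
      have h1 : lam = mu := by linarith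
      rw [h1, abs_mul_self] at hq
      have h2 : 0 < mu * mu := mul_self_pos.mpr hmu
      nlinarith
    have hN' : -mu + lam = lam - mu := by ring
    constructor
    · intro h
      obtain ⟨l, hl, R, S, e1, e2, e3, e4⟩ := seZ_of_seN (se_of_sse h)
      obtain ⟨r, r', w1, w2, w3⟩ := Pool.Agent.K1H62.SR.arith l hN s1 s2 e3 e4 e1
      refine ⟨l, r, r', w1, ?_, by rwa [hN'] at w3⟩
      rcases Nat.even_or_odd l with hl' | hl'
      · rwa [hl'.neg_pow] at w2
      · rw [hl'.neg_pow] at w2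
        exact dvd_neg.mp w2
    · rintro ⟨l, r, r', w1, w2, w3⟩
      apply sse_of_Q
      have g : ∀ n : ℕ, 0 < n → (1 : ℤ) ≤ (n : ℤ) := fun n hn => by exact_mod_cast hn
      refine Pool.Agent.K1H62.SR.classify (x := -mu) (y := lam) (nn A) (nn B) (g _ hA.1) (g _ hA.2)
        (g _ hB.1) (g _ hB.2) (neg_ne_zero.mpr hmu) (by rwa [abs_neg]) ?_ s1 s2 l r r' w1 ?_
        (by rwa [hN'])
      · have e1 : -mu * lam = -(lam * mu) := by ring
        have e2 : lam - -mu = lam + mu := by ring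
        rw [e1, e2, abs_neg]; exact hq
      · rcases Nat.even_or_odd l with hl' | hl'
        · rwa [hl'.neg_pow]
        · rw [hl'.neg_pow]
          exact (dvd_neg.mpr w2)
  · intro A hA hs
    obtain ⟨k0, hk0⟩ := hs
    obtain ⟨x, y, b, s1, t1, d1, n1⟩ := Pool.Agent.K1H62.SR.exists_tri (toZ A) |k0|
      (by rw [hk0, abs_mul_abs_self]) (by simp only [toZ, Matrix.map_apply]; exact_mod_cast hA.1)
    have hT0 : 0 ≤ (toZ A).trace := by
      rw [Matrix.trace_fin_two]; exact add_nonneg (nn A 0 0) (nn A 1 1)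
    have hk := abs_nonneg k0
    refine ⟨y, -x, b, ?_, by linarith, by linarith, s1⟩
    rw [abs_neg, abs_le]; constructor <;> linarith

end Pool.Agent.Results.MP_993212_an.TwoByTwoSmallDet
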